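import Mathlib
import Pool.Agent.Lib.RM48.SS.Main

/-!
# A model of `ZFC` in which `max {𝔰, cov(ℳ)} < 𝔰𝔰_cc`

The definitions are in `Pool.Agent.Lib.RM48.SS.Defs` (series, `max {𝔰, cov(ℳ)} < 𝔰𝔰_cc` in a
model), `Pool.Agent.Lib.RM48.Defs` (`ZFC`, reals of a model), `Pool.Agent.Lib.SymZF.ZF` (`ZF`) and
`Pool.Agent.Lib.SymZF.IntDefs` (ordered pairs, `ω`).
-/

set_option autoImplicit false

namespace Pool.Agent.Results.MP_d37bef_lc.CohenRandomModel

open Pool.Agent.Lib.SymZF Pool.Agent.Lib.RM48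

/-- There is a countable well-founded model `(M, E)` of `ZFC` (up to isomorphism a countable
transitive model; in particular its natural numbers are standard) in which
`max {𝔰, cov(ℳ)} < 𝔰𝔰_cc`. -/
theorem result : ∃ (M : Type) (E : M → M → Prop), Countable M ∧ WellFounded E ∧ IsZFC E ∧
    MaxLtSScc E := by
  obtain ⟨M, E, h1, h2, _, h4, h5⟩ := exists_ss_model
  exact ⟨M, E, h1, h2, h4, h5⟩

end Pool.Agent.Results.MP_d37bef_lc.CohenRandomModel
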