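import Mathlib
import Pool.Agent.Lib.MP_d37bef_lc.Slalom

open Cardinal Filter Topology MeasureTheory ProbabilityTheory

namespace Pool.Agent.Results.MP_d37bef_lc.CovNullBound

open Pool.Agent.Lib.MP_d37bef_lc

/-- The dominating number `𝔡`. -/
noncomputable def domNumber : Cardinal.{0} :=
  sInf {κ | ∃ D : Set (ℕ → ℕ), #D = κ ∧ ∀ f : ℕ → ℕ, ∃ g ∈ D, ∀ᶠ n in atTop, f n ≤ g n}

/-- The fair coin measure on `{0,1}^ℕ`: the product of the uniform measures on `{0,1}`. -/
noncomputable def coin : Measure (ℕ → Bool) :=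
  Measure.infinitePi fun _ => (PMF.uniformOfFintype Bool).toMeasure

/-- The covering number of the null ideal. -/
noncomputable def covNull : Cardinal.{0} :=
  sInf {κ | ∃ 𝒩 : Set (Set (ℕ → Bool)), #𝒩 = κ ∧ (∀ A ∈ 𝒩, coin A = 0) ∧ ⋃₀ 𝒩 = Set.univ}

/-! ### Components of a set of natural numbers -/

lemma exists_step (X : Set ℕ) (h1 : X.Infinite) (h2 : Xᶜ.Infinite) (c : ℕ) (hc : c ∉ X) :
    ∃ x y, c < x ∧ x < y ∧ (∀ i, c ≤ i → i < x → i ∉ X) ∧ (∀ i, x ≤ i → i < y → i ∈ X) ∧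
      y ∉ X := by
  classical
  have e1 : ∃ x, x ∈ X ∧ c < x := h1.exists_gt c
  have e2 : ∃ y, y ∈ Xᶜ ∧ Nat.find e1 < y := h2.exists_gt _
  refine ⟨Nat.find e1, Nat.find e2, (Nat.find_spec e1).2, (Nat.find_spec e2).2, ?_, ?_,
    (Nat.find_spec e2).1⟩
  · intro i hi1 hi2 hiX
    rcases hi1.eq_or_lt with h | h
    · exact hc (h ▸ hiX)
    · exact Nat.find_min e1 hi2 ⟨hiX, h⟩
  · intro i hi1 hi2
    rcases hi1.eq_or_lt with h | h
    · exact h ▸ (Nat.find_spec e1).1
    · by_contra hcon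
      exact Nat.find_min e2 hi2 ⟨hcon, h⟩

/-- The components of `X` from some point on are the intervals `[x k, y (k+1))`. -/
structure Comps (X : Set ℕ) (x y : ℕ → ℕ) : Prop where
  yx : ∀ k, y k < x k
  xy : ∀ k, x k < y (k + 1)
  out : ∀ k i, y k ≤ i → i < x k → i ∉ X
  inn : ∀ k i, x k ≤ i → i < y (k + 1) → i ∈ X

lemma Comps.mono {X : Set ℕ} {x y : ℕ → ℕ} (h : Comps X x y) : StrictMono y :=
  strictMono_nat_of_lt_succ fun k => (h.yx k).trans (h.xy k)

lemma exists_comps (X : Set ℕ) (h1 : X.Infinite) (h2 : Xᶜ.Infinite) :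
    ∃ x y, Comps X x y := by
  choose fx fy hf using exists_step X h1 h2
  obtain ⟨c0, hc0⟩ := h2.nonempty
  let seq : ℕ → {c // c ∉ X} := fun n => Nat.rec ⟨c0, hc0⟩
    (fun _ c => ⟨fy c.1 c.2, (hf c.1 c.2).2.2.2.2⟩) n
  refine ⟨fun k => fx (seq k).1 (seq k).2, fun k => (seq k).1, ?_, ?_, ?_, ?_⟩
  · intro k
    exact (hf (seq k).1 (seq k).2).1
  · intro k
    exact (hf (seq k).1 (seq k).2).2.1
  · intro k
    exact (hf (seq k).1 (seq k).2).2.2.1
  · intro k
    exact (hf (seq k).1 (seq k).2).2.2.2.1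

/-! ### The interval partition -/

lemma exists_block (p : ℕ → ℕ) (hp0 : p 0 = 0) (hp : StrictMono p) (m : ℕ) :
    ∃ n, p n ≤ m ∧ m < p (n + 1) :=
  Pool.Agent.Lib.MP_d37bef_lc.exists_block p hp0 hp m

lemma exists_partition (𝒴 : Set (ℕ → ℕ)) (hmono : ∀ Y ∈ 𝒴, StrictMono Y)
    (hcard : #𝒴 < domNumber) (w : ℕ → ℕ) (hw : Monotone w) :
    ∃ h : ℕ → ℕ, StrictMono h ∧ h 0 = 0 ∧
      ∀ Y ∈ 𝒴, ∀ N, ∃ n ≥ N, ∃ k, h n ≤ Y k ∧ Y (k + w n) < h (n + 1) := by
  let G : (ℕ → ℕ) → ℕ → ℕ := fun Y m => Y (m + 2 * w (m + 1) + 1)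
  have hnd : ∃ f : ℕ → ℕ, ∀ Y ∈ 𝒴, ∃ᶠ m in atTop, G Y m < f m := by
    by_contra hcon
    push Not at hcon
    have h1 : domNumber ≤ #(G '' 𝒴) := by
      refine csInf_le' ⟨G '' 𝒴, rfl, fun f => ?_⟩
      obtain ⟨Y, hY, hYf⟩ := hcon f
      exact ⟨G Y, ⟨Y, hY, rfl⟩, by simpa using hYf⟩
    exact absurd (hcard.trans_le (h1.trans Cardinal.mk_image_le)) (lt_irrefl _)
  obtain ⟨f, hf⟩ := hnd
  let F : ℕ → ℕ := fun m => m + 1 + ∑ i ∈ Finset.range (m + 1), f i
  have hFmono : Monotone F := by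
    intro a b hab
    have h2 : ∑ i ∈ Finset.range (a + 1), f i ≤ ∑ i ∈ Finset.range (b + 1), f i :=
      Finset.sum_le_sum_of_subset (Finset.range_mono (by omega))
    simp only [F]
    omega
  have hFf : ∀ m, f m ≤ F m := by
    intro m
    have h2 : f m ≤ ∑ i ∈ Finset.range (m + 1), f i :=
      Finset.single_le_sum (f := f) (fun _ _ => Nat.zero_le _) (Finset.self_mem_range_succ m)
    simp only [F]
    omega
  have hFlt : ∀ m, m < F m := by
    intro m
    simp only [F]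
    omega
  let h : ℕ → ℕ := fun n => Nat.rec 0 (fun _ c => F c) n
  have hs : ∀ n, h (n + 1) = F (h n) := fun n => rfl
  have hh : StrictMono h := strictMono_nat_of_lt_succ fun n => by
    rw [hs]
    exact hFlt _
  refine ⟨h, hh, rfl, fun Y hY N => ?_⟩
  obtain ⟨m, hmN, hm⟩ := (frequently_atTop.1 (hf Y hY)) (h N)
  obtain ⟨n, hn1, hn2⟩ := exists_block h rfl hh m
  have hNn : N ≤ n := by
    by_contra hcon
    have := hh.monotone (show n + 1 ≤ N by omega)
    omega
  have hYm := hmono Y hY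
  have hnm : n ≤ m := hh.le_apply.trans hn1
  have key : Y (h n + 2 * w (n + 1) + 1) < h (n + 2) := by
    calc Y (h n + 2 * w (n + 1) + 1) ≤ Y (m + 2 * w (m + 1) + 1) := by
          refine hYm.monotone ?_
          have := hw (show n + 1 ≤ m + 1 by omega)
          omega
      _ < f m := hm
      _ ≤ F m := hFf m
      _ ≤ F (h (n + 1)) := hFmono hn2.le
      _ = h (n + 2) := (hs (n + 1)).symm
  by_cases hcase : Y (h n + w n) < h (n + 1)
  · exact ⟨n, hNn, h n, hYm.le_apply, hcase⟩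
  · refine ⟨n + 1, by omega, h n + w n, not_lt.1 hcase, lt_of_le_of_lt ?_ key⟩
    refine hYm.monotone ?_
    have := hw (show n ≤ n + 1 by omega)
    omega

/-! ### Independent runs -/

instance : IsProbabilityMeasure (PMF.uniformOfFintype Bool).toMeasure := inferInstance

instance : IsProbabilityMeasure coin := by
  unfold coin
  infer_instance

lemma uniform_singleton (b : Bool) :
    (PMF.uniformOfFintype Bool).toMeasure {b} = 2⁻¹ := by
  rw [PMF.toMeasure_apply_singleton _ _ (measurableSet_singleton b)]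
  simp

/-- The event that the bits on `T` follow the pattern `w`. -/
def matchSet (T : Finset ℕ) (w : ℕ → Bool) : Set (ℕ → Bool) := {ε | ∀ i ∈ T, ε i = w i}

lemma coin_matchSet (T : Finset ℕ) (w : ℕ → Bool) :
    coin (matchSet T w) = 2⁻¹ ^ T.card := by
  have h1 : matchSet T w = Set.pi T fun i => {w i} := by
    ext ε
    simp [matchSet, Set.mem_pi]
  rw [h1, coin, Measure.infinitePi_pi _ (fun i _ => measurableSet_singleton _)]
  simp

lemma measurableSet_matchSet (T : Finset ℕ) (w : ℕ → Bool) : MeasurableSet (matchSet T w) := by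
  have h1 : matchSet T w = Set.pi T fun i => {w i} := by
    ext ε
    simp [matchSet, Set.mem_pi]
  rw [h1]
  exact MeasurableSet.pi T.countable_toSet fun i _ => measurableSet_singleton _

/-- The event that none of the first `K` runs follows the pattern. -/
def failSet (T : ℕ → Finset ℕ) (w : ℕ → Bool) (K : ℕ) : Set (ℕ → Bool) :=
  {ε | ∀ r < K, ε ∉ matchSet (T r) w}

lemma coin_failSet (T : ℕ → Finset ℕ) (w : ℕ → Bool) (m : ℕ) (hT : ∀ r, (T r).card = m)
    (hdisj : ∀ r r', r < r' → Disjoint (T r) (T r')) (K : ℕ) :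
    coin (failSet T w K) = (1 - 2⁻¹ ^ m) ^ K := by
  induction K with
  | zero => simp [failSet]
  | succ K ih =>
    classical
    let S : Finset ℕ := (Finset.range K).biUnion T
    have hST : Disjoint S (T K) := by
      rw [Finset.disjoint_biUnion_left]
      intro r hr
      exact hdisj r K (Finset.mem_range.1 hr)
    have hind : iIndepFun (fun (i : ℕ) (ε : ℕ → Bool) => ε i) coin :=
      iIndepFun_infinitePi (X := fun _ (b : Bool) => b) (fun _ => measurable_id)
    have hind2 := hind.indepFun_finset S (T K) hST (fun i => measurable_pi_apply i)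
    let A : Set (S → Bool) := {x | ∀ r < K, ¬ ∀ i : S, i.1 ∈ T r → x i = w i.1}
    let B : Set (T K → Bool) := {x | ¬ ∀ i : T K, x i = w i.1}
    have hA : (fun (ε : ℕ → Bool) (i : S) => ε i.1) ⁻¹' A = failSet T w K := by
      ext ε
      simp only [Set.mem_preimage, A, Set.mem_ofPred_eq, failSet, matchSet]
      refine forall₂_congr fun r hr => not_congr ?_
      constructor
      · intro h i hi
        exact h ⟨i, Finset.mem_biUnion.2 ⟨r, Finset.mem_range.2 hr, hi⟩⟩ hi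
      · intro h i hi
        exact h i.1 hi
    have hB : (fun (ε : ℕ → Bool) (i : T K) => ε i.1) ⁻¹' B = (matchSet (T K) w)ᶜ := by
      ext ε
      simp [B, matchSet]
    have hdecomp : failSet T w (K + 1) = failSet T w K ∩ (matchSet (T K) w)ᶜ := by
      ext ε
      simp only [failSet, Set.mem_ofPred_eq, Set.mem_inter_iff, Set.mem_compl_iff]
      constructor
      · intro h
        exact ⟨fun r hr => h r (by omega), h K (by omega)⟩
      · rintro ⟨h1, h2⟩ r hr
        rcases Nat.lt_succ_iff_lt_or_eq.1 hr with h | h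
        · exact h1 r h
        · exact h ▸ h2
    have hmul := hind2.measure_inter_preimage_eq_mul A B (Set.Finite.measurableSet (Set.toFinite A))
      (Set.Finite.measurableSet (Set.toFinite B))
    rw [hA, hB] at hmul
    rw [hdecomp, hmul, ih, prob_compl_eq_one_sub (measurableSet_matchSet _ _), coin_matchSet, hT,
      pow_succ]

lemma fail_bound (n : ℕ) :
    ((1 : ENNReal) - 2⁻¹ ^ (2 * (n + 1))) ^ (n * 4 ^ (n + 1)) ≤
      ENNReal.ofReal (Real.exp (-n)) := by
  have h4 : (0 : ℝ) < 4 ^ (n + 1) := by positivity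
  have h1 : (1 : ENNReal) - 2⁻¹ ^ (2 * (n + 1)) =
      ENNReal.ofReal (1 - ((4 : ℝ) ^ (n + 1))⁻¹) := by
    rw [ENNReal.ofReal_sub _ (by positivity), ENNReal.ofReal_one, pow_mul,
      ENNReal.ofReal_inv_of_pos h4, ENNReal.ofReal_pow (by norm_num)]
    congr 1
    rw [← ENNReal.inv_pow, ← ENNReal.inv_pow]
    congr 2
    rw [show ENNReal.ofReal 4 = 4 by norm_num]
    norm_num
  have h2 : 0 ≤ 1 - ((4 : ℝ) ^ (n + 1))⁻¹ := by
    have : ((4 : ℝ) ^ (n + 1))⁻¹ ≤ 1 := inv_le_one_of_one_le₀ (one_le_pow₀ (by norm_num))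
    linarith
  rw [h1, ← ENNReal.ofReal_pow h2]
  apply ENNReal.ofReal_le_ofReal
  have h3 : 1 - ((4 : ℝ) ^ (n + 1))⁻¹ ≤ Real.exp (-((4 : ℝ) ^ (n + 1))⁻¹) := by
    have := Real.add_one_le_exp (-((4 : ℝ) ^ (n + 1))⁻¹)
    linarith
  calc (1 - ((4 : ℝ) ^ (n + 1))⁻¹) ^ (n * 4 ^ (n + 1))
      ≤ Real.exp (-((4 : ℝ) ^ (n + 1))⁻¹) ^ (n * 4 ^ (n + 1)) := pow_le_pow_left₀ h2 h3 _
    _ = Real.exp (-n) := by
      rw [← Real.exp_nat_mul]
      congr 1
      push_cast
      field_simp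

lemma null_of_frequently (E : Set (ℕ → Bool))
    (h : ∀ N, ∃ n ≥ N, coin E ≤ ENNReal.ofReal (Real.exp (-(n : ℕ)))) : coin E = 0 := by
  have ht : Tendsto (fun n : ℕ => ENNReal.ofReal (Real.exp (-(n : ℕ)))) atTop (𝓝 0) := by
    rw [← ENNReal.ofReal_zero]
    refine ENNReal.tendsto_ofReal ?_
    exact Real.tendsto_exp_neg_atTop_nhds_zero.comp tendsto_natCast_atTop_atTop
  by_contra hne
  have hpos : 0 < coin E := pos_iff_ne_zero.2 hne
  obtain ⟨N, hN⟩ := eventually_atTop.1 (ht.eventually (gt_mem_nhds hpos))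
  obtain ⟨n, hn, hle⟩ := h N
  exact absurd (hN n hn) hle.not_gt

/-! ### The random series -/

section series

variable (h : ℕ → ℕ) (h0 : h 0 = 0) (hh : StrictMono h)

/-- The index of the block containing `i`. -/
noncomputable def blk (i : ℕ) : ℕ := (exists_block h h0 hh i).choose

lemma blk_spec (i : ℕ) : h (blk h h0 hh i) ≤ i ∧ i < h (blk h h0 hh i + 1) :=
  (exists_block h h0 hh i).choose_spec

lemma blk_eq {n i : ℕ} (h1 : h n ≤ i) (h2 : i < h (n + 1)) : blk h h0 hh i = n := by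
  have hs := blk_spec h h0 hh i
  rcases lt_trichotomy (blk h h0 hh i) n with hlt | heq | hgt
  · have := hh.monotone (show blk h h0 hh i + 1 ≤ n by omega)
    omega
  · exact heq
  · have := hh.monotone (show n + 1 ≤ blk h h0 hh i by omega)
    omega

lemma le_blk {N i : ℕ} (hi : h N ≤ i) : N ≤ blk h h0 hh i := by
  by_contra hcon
  have := hh.monotone (show blk h h0 hh i + 1 ≤ N by omega)
  have := (blk_spec h h0 hh i).2
  omega

/-- The random partial sums. -/
noncomputable def rs (ε : ℕ → Bool) (i : ℕ) : ℚ :=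
  if ε i = true then 1 / ((blk h h0 hh i : ℚ) + 1) else 0

/-- The random series. -/
noncomputable def ra (ε : ℕ → Bool) (i : ℕ) : ℚ := rs h h0 hh ε (i + 1) - rs h h0 hh ε i

lemma rs_tendsto (ε : ℕ → Bool) : Tendsto (fun i => (rs h h0 hh ε i : ℝ)) atTop (𝓝 0) := by
  rw [Metric.tendsto_atTop]
  intro δ hδ
  obtain ⟨N, hN⟩ := exists_nat_one_div_lt hδ
  refine ⟨h N, fun i hi => ?_⟩
  rw [Real.dist_eq, sub_zero]
  have hb := le_blk h h0 hh hi
  have hb' : (N : ℝ) ≤ (blk h h0 hh i : ℝ) := by exact_mod_cast hb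
  unfold rs
  split_ifs
  · push_cast
    rw [abs_of_pos (by positivity)]
    refine lt_of_le_of_lt ?_ hN
    apply one_div_le_one_div_of_le
    · positivity
    · linarith
  · simpa using hδ

lemma psum_ra (ε : ℕ → Bool) (m : ℕ) :
    ∑ i ∈ Finset.range m, (ra h h0 hh ε i : ℝ) =
      (rs h h0 hh ε m : ℝ) - (rs h h0 hh ε 0 : ℝ) := by
  induction m with
  | zero => simp
  | succ m ih =>
    rw [Finset.sum_range_succ, ih, ra]
    push_cast
    ring

lemma ra_converges (ε : ℕ → Bool) : SeriesConverges fun i => (ra h h0 hh ε i : ℝ) := by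
  refine ⟨0 - (rs h h0 hh ε 0 : ℝ), ?_⟩
  simp_rw [psum_ra]
  exact (rs_tendsto h h0 hh ε).sub_const _

/-! ### Divergence of subseries -/

open Classical in
/-- The padded subseries. -/
noncomputable def pad (u : ℕ → ℝ) (X : Set ℕ) : ℕ → ℝ := fun i => if i ∈ X then u i else 0

lemma psum_pad_out (u : ℕ → ℝ) (X : Set ℕ) (m m' : ℕ) (hmm : m ≤ m')
    (hout : ∀ i, m ≤ i → i < m' → i ∉ X) : psum (pad u X) m' = psum (pad u X) m := by
  induction m', hmm using Nat.le_induction with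
  | base => rfl
  | succ k hk ih =>
    rw [psum_succ, ih fun i h1 h2 => hout i h1 (by omega)]
    have : pad u X k = 0 := if_neg (hout k hk (by omega))
    rw [this, add_zero]

lemma psum_pad_inn (ε : ℕ → Bool) (X : Set ℕ) (m m' : ℕ) (hmm : m ≤ m')
    (hinn : ∀ i, m ≤ i → i < m' → i ∈ X) :
    psum (pad (fun i => (ra h h0 hh ε i : ℝ)) X) m' =
      psum (pad (fun i => (ra h h0 hh ε i : ℝ)) X) m +
        ((rs h h0 hh ε m' : ℝ) - (rs h h0 hh ε m : ℝ)) := by
  induction m', hmm using Nat.le_induction with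
  | base => ring
  | succ k hk ih =>
    rw [psum_succ, ih fun i h1 h2 => hinn i h1 (by omega)]
    have : pad (fun i => (ra h h0 hh ε i : ℝ)) X k = (ra h h0 hh ε k : ℝ) :=
      if_pos (hinn k hk (by omega))
    rw [this, ra]
    push_cast
    ring

variable {X : Set ℕ} {x y : ℕ → ℕ} (hc : Comps X x y)

include hc in
lemma psum_comp (ε : ℕ → Bool) (k : ℕ) :
    psum (pad (fun i => (ra h h0 hh ε i : ℝ)) X) (y (k + 1)) =
      psum (pad (fun i => (ra h h0 hh ε i : ℝ)) X) (y k) +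
        ((rs h h0 hh ε (y (k + 1)) : ℝ) - (rs h h0 hh ε (x k) : ℝ)) := by
  rw [psum_pad_inn h h0 hh ε X (x k) (y (k + 1)) (hc.xy k).le (hc.inn k),
    psum_pad_out _ X (y k) (x k) (hc.yx k).le (hc.out k)]

open Classical in
/-- The positions of the `r`-th run of `n + 1` consecutive components from `k₀` on. -/
noncomputable def runSet (x y : ℕ → ℕ) (n k₀ r : ℕ) : Finset ℕ :=
  (Finset.range (n + 1)).image (fun j => x (k₀ + r * (n + 1) + j)) ∪
    (Finset.range (n + 1)).image (fun j => y (k₀ + r * (n + 1) + j + 1))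

open Classical in
/-- The pattern: the bit is `1` exactly outside of `X`. -/
noncomputable def pat (X : Set ℕ) (i : ℕ) : Bool := decide (i ∉ X)

include hc in
lemma x_mem (k : ℕ) : x k ∈ X := hc.inn k (x k) le_rfl (hc.xy k)

include hc in
lemma y_notMem (k : ℕ) : y k ∉ X := hc.out k (y k) le_rfl (hc.yx k)

include hc in
lemma x_mono : StrictMono x := strictMono_nat_of_lt_succ fun k => (hc.xy k).trans (hc.yx (k + 1))

include hc in
lemma runSet_card (n k₀ r : ℕ) : (runSet x y n k₀ r).card = 2 * (n + 1) := by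
  classical
  unfold runSet
  rw [Finset.card_union_of_disjoint, Finset.card_image_of_injective,
    Finset.card_image_of_injective, Finset.card_range]
  · ring
  · intro a b hab
    have := hc.mono.injective hab
    omega
  · intro a b hab
    have := (x_mono hc).injective hab
    omega
  · rw [Finset.disjoint_left]
    intro i h1 h2
    obtain ⟨a, _, rfl⟩ := Finset.mem_image.1 h1
    obtain ⟨b, _, hb⟩ := Finset.mem_image.1 h2
    exact y_notMem hc _ (hb ▸ x_mem hc _)

include hc in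
lemma runSet_bounds (n k₀ r i : ℕ) (hi : i ∈ runSet x y n k₀ r) :
    y (k₀ + r * (n + 1)) < i ∧ i ≤ y (k₀ + (r + 1) * (n + 1)) := by
  have hy := hc.mono
  have e : k₀ + (r + 1) * (n + 1) = k₀ + r * (n + 1) + (n + 1) := by ring
  unfold runSet at hi
  rw [e]
  generalize k₀ + r * (n + 1) = k at *
  rcases Finset.mem_union.1 hi with h1 | h1
  · obtain ⟨j, hj, rfl⟩ := Finset.mem_image.1 h1
    rw [Finset.mem_range] at hj
    constructor
    · exact (hy.monotone (by omega)).trans_lt (hc.yx _)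
    · exact (hc.xy _).le.trans (hy.monotone (by omega))
  · obtain ⟨j, hj, rfl⟩ := Finset.mem_image.1 h1
    rw [Finset.mem_range] at hj
    exact ⟨hy (by omega), hy.monotone (by omega)⟩

include hc in
lemma runSet_disjoint (n k₀ r r' : ℕ) (hr : r < r') :
    Disjoint (runSet x y n k₀ r) (runSet x y n k₀ r') := by
  rw [Finset.disjoint_left]
  intro i h1 h2
  have b1 := (runSet_bounds hc n k₀ r i h1).2
  have b2 := (runSet_bounds hc n k₀ r' i h2).1
  have : y (k₀ + (r + 1) * (n + 1)) ≤ y (k₀ + r' * (n + 1)) := by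
    refine hc.mono.monotone ?_
    have : (r + 1) * (n + 1) ≤ r' * (n + 1) := Nat.mul_le_mul_right _ hr
    omega
  omega

include hc in
lemma run_sum (ε : ℕ → Bool) (n k₀ r K : ℕ) (hrK : r < K) (h1 : h n ≤ y k₀)
    (h2 : y (k₀ + K * (n + 1)) < h (n + 1))
    (hm : ε ∈ matchSet (runSet x y n k₀ r) (pat X)) :
    psum (pad (fun i => (ra h h0 hh ε i : ℝ)) X) (y (k₀ + r * (n + 1) + (n + 1))) =
      psum (pad (fun i => (ra h h0 hh ε i : ℝ)) X) (y (k₀ + r * (n + 1))) + 1 := by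
  have hK : r * (n + 1) + (n + 1) ≤ K * (n + 1) := by
    have : (r + 1) * (n + 1) ≤ K * (n + 1) := Nat.mul_le_mul_right _ hrK
    linarith
  have hstep : ∀ j ≤ n + 1,
      psum (pad (fun i => (ra h h0 hh ε i : ℝ)) X) (y (k₀ + r * (n + 1) + j)) =
        psum (pad (fun i => (ra h h0 hh ε i : ℝ)) X) (y (k₀ + r * (n + 1))) +
          j * (1 / ((n : ℝ) + 1)) := by
    intro j
    induction j with
    | zero => intro _; simp
    | succ j ih =>
      intro hj
      have hx : rs h h0 hh ε (x (k₀ + r * (n + 1) + j)) = 0 := by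
        have hmem : x (k₀ + r * (n + 1) + j) ∈ runSet x y n k₀ r :=
          Finset.mem_union_left _ (Finset.mem_image.2 ⟨j, Finset.mem_range.2 (by omega), rfl⟩)
        have hε := hm _ hmem
        unfold rs
        rw [if_neg]
        rw [hε, pat]
        simp [x_mem hc]
      have hy : rs h h0 hh ε (y (k₀ + r * (n + 1) + j + 1)) = 1 / ((n : ℚ) + 1) := by
        have hmem : y (k₀ + r * (n + 1) + j + 1) ∈ runSet x y n k₀ r :=
          Finset.mem_union_right _ (Finset.mem_image.2 ⟨j, Finset.mem_range.2 (by omega), rfl⟩)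
        have hε := hm _ hmem
        have hb : blk h h0 hh (y (k₀ + r * (n + 1) + j + 1)) = n := by
          apply blk_eq
          · exact h1.trans (hc.mono.monotone (by omega))
          · exact (hc.mono.monotone (by omega)).trans_lt h2
        unfold rs
        rw [if_pos, hb]
        rw [hε, pat]
        simp [y_notMem hc]
      rw [show k₀ + r * (n + 1) + (j + 1) = k₀ + r * (n + 1) + j + 1 by ring,
        psum_comp h h0 hh hc, ih (by omega), hx, hy]
      push_cast
      ring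
  rw [hstep (n + 1) le_rfl]
  push_cast
  field_simp

include hc in
lemma null_converge (hmany : ∀ N, ∃ n ≥ N, ∃ k, h n ≤ y k ∧
    y (k + (n * 4 ^ (n + 1)) * (n + 1)) < h (n + 1)) :
    coin {ε | SeriesConverges (pad (fun i => (ra h h0 hh ε i : ℝ)) X)} = 0 := by
  let E : ℕ → Set (ℕ → Bool) := fun N => {ε | ∀ n ≥ N, ∀ k₀, h n ≤ y k₀ →
    y (k₀ + (n * 4 ^ (n + 1)) * (n + 1)) < h (n + 1) →
      ε ∈ failSet (runSet x y n k₀) (pat X) (n * 4 ^ (n + 1))}
  have hsub : {ε | SeriesConverges (pad (fun i => (ra h h0 hh ε i : ℝ)) X)} ⊆ ⋃ N, E N := by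
    rintro ε ⟨L, hL⟩
    rw [Metric.tendsto_atTop] at hL
    obtain ⟨N, hN⟩ := hL (1 / 2) (by norm_num)
    refine Set.mem_iUnion.2 ⟨N, fun n hn k₀ h1 h2 r hr hmatch => ?_⟩
    have hs := run_sum h h0 hh hc ε n k₀ r _ hr h1 h2 hmatch
    have hb1 : N ≤ y (k₀ + r * (n + 1)) := by
      calc N ≤ n := hn
        _ ≤ h n := hh.le_apply
        _ ≤ y k₀ := h1
        _ ≤ _ := hc.mono.monotone (by omega)
    have hb2 : N ≤ y (k₀ + r * (n + 1) + (n + 1)) :=
      hb1.trans (hc.mono.monotone (by omega))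
    have d1 := hN _ hb1
    have d2 := hN _ hb2
    change dist (psum (pad (fun i => (ra h h0 hh ε i : ℝ)) X) _) L < 1 / 2 at d1
    change dist (psum (pad (fun i => (ra h h0 hh ε i : ℝ)) X) _) L < 1 / 2 at d2
    rw [hs] at d2
    rw [Real.dist_eq, abs_lt] at d1 d2
    linarith [d1.1, d2.2]
  refine measure_mono_null hsub (measure_iUnion_null fun N => ?_)
  refine null_of_frequently _ fun M => ?_
  obtain ⟨n, hn, k, hk1, hk2⟩ := hmany (max N M)
  refine ⟨n, (le_max_right _ _).trans hn, ?_⟩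
  have hE : E N ⊆ failSet (runSet x y n k) (pat X) (n * 4 ^ (n + 1)) := fun ε hε =>
    hε n ((le_max_left _ _).trans hn) k hk1 hk2
  refine (measure_mono hE).trans ?_
  rw [coin_failSet _ _ (2 * (n + 1)) (fun r => runSet_card hc n k r)
    (fun r r' hrr => runSet_disjoint hc n k r r' hrr)]
  exact fail_bound n

end series

/-! ### A conditionally convergent series exists -/

lemma exists_condConverges : ∃ a : ℕ → ℚ, CondConverges fun i => (a i : ℝ) := by
  refine ⟨fun i => (-1) ^ i * (1 / ((i : ℚ) + 1)), ?_, ?_⟩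
  · have hanti : Antitone fun i : ℕ => (1 : ℝ) / ((i : ℝ) + 1) := by
      intro i j hij
      have : (i : ℝ) ≤ j := by exact_mod_cast hij
      apply one_div_le_one_div_of_le
      · positivity
      · linarith
    have ht : Tendsto (fun i : ℕ => (1 : ℝ) / ((i : ℝ) + 1)) atTop (𝓝 0) :=
      tendsto_one_div_add_atTop_nhds_zero_nat
    have hcau := hanti.cauchySeq_alternating_series_of_tendsto_zero ht
    obtain ⟨L, hL⟩ := cauchySeq_tendsto_of_complete hcau
    refine ⟨L, ?_⟩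
    simpa using hL
  · rintro ⟨L, hL⟩
    have h1 : ∀ n, ∑ i ∈ Finset.range n, |(((-1) ^ i * (1 / ((i : ℚ) + 1)) : ℚ) : ℝ)| =
        ∑ i ∈ Finset.range n, (1 : ℝ) / ((i : ℝ) + 1) := by
      intro n
      refine Finset.sum_congr rfl fun i _ => ?_
      push_cast
      rw [abs_mul, abs_pow, abs_neg, abs_one, one_pow, one_mul, abs_of_pos (by positivity)]
    simp_rw [h1] at hL
    exact not_tendsto_nhds_of_tendsto_atTop Real.tendsto_sum_range_one_div_nat_succ_atTop _ hL

lemma pad_converges_of_abs (u : ℕ → ℝ) (X : Set ℕ) (h : SeriesConverges fun i => |u i|) :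
    SeriesConverges (pad u X) := by
  obtain ⟨L, hL⟩ := h
  have h1 : Summable fun i => |u i| :=
    ((hasSum_iff_tendsto_nat_of_nonneg (fun i => abs_nonneg (u i)) L).2 hL).summable
  have h2 : Summable (pad u X) := by
    refine h1.of_norm_bounded fun i => ?_
    rw [Real.norm_eq_abs]
    unfold pad
    split_ifs
    · exact le_rfl
    · simp
  exact ⟨_, h2.hasSum.tendsto_sum_nat⟩

/-- `min {cov(𝒩), 𝔡} ≤ 𝔰𝔰_c`. -/
lemma min_le_of_isCFamily (𝒳 : Set (Set ℕ)) (h𝒳 : IsCFamily 𝒳) :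
    min covNull domNumber ≤ #𝒳 := by
  classical
  by_contra hcon
  rw [not_le, lt_min_iff] at hcon
  have hex : ∀ X : 𝒳, ∃ x y, Comps X.1 x y := fun X =>
    exists_comps X.1 (h𝒳.1 X.1 X.2).1 (h𝒳.1 X.1 X.2).2
  choose x y hxy using hex
  have hw : Monotone fun n : ℕ => (n * 4 ^ (n + 1)) * (n + 1) := by
    intro a b hab
    have h1 : 4 ^ (a + 1) ≤ 4 ^ (b + 1) := Nat.pow_le_pow_right (by norm_num) (by omega)
    exact Nat.mul_le_mul (Nat.mul_le_mul hab h1) (by omega)
  obtain ⟨h, hh, h0, hmany⟩ := exists_partition (Set.range y)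
    (by rintro _ ⟨X, rfl⟩; exact (hxy X).mono)
    (Cardinal.mk_range_le.trans_lt hcon.2) _ hw
  let NX : 𝒳 → Set (ℕ → Bool) := fun X =>
    {ε | SeriesConverges (pad (fun i => (ra h h0 hh ε i : ℝ)) X.1)}
  have hnull : ∀ X, coin (NX X) = 0 := fun X =>
    null_converge h h0 hh (hxy X) (hmany (y X) ⟨X, rfl⟩)
  have hcov : ⋃₀ (Set.range NX) ≠ Set.univ := by
    intro hun
    have h1 : covNull ≤ #(Set.range NX) :=
      csInf_le' ⟨Set.range NX, rfl, by rintro _ ⟨X, rfl⟩; exact hnull X, hun⟩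
    exact absurd (hcon.1.trans_le (h1.trans Cardinal.mk_range_le)) (lt_irrefl _)
  obtain ⟨ε, hε⟩ := (Set.ne_univ_iff_exists_notMem _).1 hcov
  have hdiv : ∀ X : 𝒳, ¬ SeriesConverges (pad (fun i => (ra h h0 hh ε i : ℝ)) X.1) :=
    fun X hX => hε ⟨NX X, ⟨X, rfl⟩, hX⟩
  obtain ⟨a0, ha0⟩ := exists_condConverges
  obtain ⟨X0, hX0, _⟩ := h𝒳.2 a0 ha0
  have hcc : CondConverges fun i => (ra h h0 hh ε i : ℝ) :=
    ⟨ra_converges h h0 hh ε, fun habs => hdiv ⟨X0, hX0⟩ (pad_converges_of_abs _ _ habs)⟩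
  obtain ⟨X, hX, hconv⟩ := h𝒳.2 _ hcc
  apply hdiv ⟨X, hX⟩
  exact (converges_sub_iff (fun i => (ra h h0 hh ε i : ℝ)) X (h𝒳.1 X hX).1).1 hconv

/-- `min {cov(𝒩), 𝔡} ≤ 𝔰𝔰_c ≤ 𝔰𝔰_cc`. -/
theorem result : min covNull domNumber ≤ ssC ∧ ssC ≤ ssCC := by
  refine ⟨?_, ssC_le_ssCC⟩
  obtain ⟨𝒳, h1, h2⟩ := ssC_spec
  rw [← h1]
  exact min_le_of_isCFamily 𝒳 h2

end Pool.Agent.Results.MP_d37bef_lc.CovNullBound
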