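import Mathlib
import Pool.Agent.Lib.MP_d37bef_lc.Slalom

open Cardinal Filter Topology

namespace Pool.Agent.Results.MP_d37bef_lc.SlalomBound

open Pool.Agent.Lib.MP_d37bef_lc

/-- For every `g ≥ 1` and every sufficiently large bound `b`, the subseries number `𝔰𝔰_cc` is at
most the localization number `𝔠^∀_{b,g}`. -/
theorem result (g : ℕ → ℕ) (hg : ∀ n, 1 ≤ g n) :
    ∃ b₀ : ℕ → ℕ, ∀ b : ℕ → ℕ, (∀ n, b₀ n ≤ b n) → ssCC ≤ locNumber b g := by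
  refine ⟨bb g, fun b hb => ?_⟩
  have hne : {κ | ∃ Φ : Set (ℕ → Finset ℕ), #Φ = κ ∧ IsLocFamily b g Φ}.Nonempty := by
    refine ⟨_, {φ | ∀ n, (φ n).card ≤ g n}, rfl, fun φ hφ => hφ, fun x _ => ?_⟩
    exact ⟨fun n => {x n}, fun n => by simpa using hg n, Eventually.of_forall fun n => by simp⟩
  obtain ⟨Φ, hΦ1, hΦ2⟩ := csInf_mem hne
  obtain ⟨𝒳, h1, h2⟩ := exists_isCCFamily g hb hΦ2
  calc ssCC ≤ #𝒳 := csInf_le' ⟨𝒳, rfl, h2⟩
    _ ≤ #Φ := h1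
    _ = locNumber b g := hΦ1

end Pool.Agent.Results.MP_d37bef_lc.SlalomBound
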